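import Pool.Agent.X131.SY.Disp

set_option autoImplicit false

/-! No circuits of fixed-parameter size which are symmetric under a product of alternating groups of degree
five approximate Clique, with any ratio. The gates compute arbitrary functions. -/

namespace Pool.Agent.Results.MP_1fcf49_lc.LocallySymmetricCircuits

open Pool.Agent.W893.SY Pool.Agent.X131.SY Pool.Agent.X131.SY.GL

/-- Admissible ratios for a maximisation problem: `k / ρ k` is nondecreasing and unbounded. -/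
def Admissible (ρ : ℕ → ℝ) : Prop :=
  (∀ k, 1 ≤ ρ k) ∧ Monotone (fun k : ℕ => (k : ℝ) / ρ k) ∧ ∀ B : ℝ, ∃ k : ℕ, B ≤ (k : ℝ) / ρ k

/-- The circuit with the outputs `outs` and the language `L` tell graphs without edges inside the parts
which have a clique with one vertex in each of the `k` parts from those in which all cliques have less
than `k / ρ k` vertices. -/
def ApproxReducesTo {k t s : ℕ} {O : Type} (ρ : ℕ → ℝ) (C : Net (Sym2 (Vtx k t) × Bool) Bool s)
    (outs : O → Fin s) (L : Set (O → Bool)) : Prop :=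
  ∀ G : SimpleGraph (Vtx k t), (∀ i x y, ¬ G.Adj (i, x) (i, y)) →
    ((∃ S : Finset (Vtx k t), G.IsNClique k S) → (fun o => C.val (litV G) (outs o)) ∈ L) ∧
    ((∀ S : Finset (Vtx k t), G.IsClique (S : Set (Vtx k t)) → (S.card : ℝ) < k / ρ k) →
      (fun o => C.val (litV G) (outs o)) ∉ L)

theorem result :
    ∃ K : ℕ, 0 < K ∧
      (∀ (k m t s : ℕ) (C : Net (Sym2 (Vtx k t) × Bool) Bool s) (O : Type) (outs : O → Fin s)
        (L : Set (O → Bool)), 2 ≤ m → 22 * (k + 1) ≤ t → WordSymOut C outs →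
        GapReducesTo m C outs L → (5 ^ t) ^ m ≤ (s + 1) ^ K) ∧
      (∀ ρ : ℕ → ℝ, Admissible ρ → ∀ (c : ℕ) (f : ℕ → ℕ), ∃ k₀ : ℕ, ∀ k : ℕ, k₀ ≤ k →
        ∃ T : ℕ, ∀ t : ℕ, T ≤ t → ∀ (s : ℕ) (C : Net (Sym2 (Vtx k t) × Bool) Bool s) (O : Type)
          (outs : O → Fin s) (L : Set (O → Bool)), WordSymOut C outs →
          ApproxReducesTo ρ C outs L → f k * (k * 5 ^ t) ^ c < s) := by
  obtain ⟨K, hK, h⟩ := gap_final
  refine ⟨K, hK, ?_, ?_⟩
  · intro k m t s C O outs L hm ht hsym hC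
    rw [← pow_mul, mul_comm t m]
    exact h k m t s C O outs L hm ht hsym hC
  · intro ρ hρ c f
    obtain ⟨k₀, hk₀⟩ := hρ.2.2 ((K * c + 2 : ℕ) : ℝ)
    refine ⟨k₀, fun k hk => ⟨22 * (k + 1) + (f k * k ^ c + 1) ^ K,
      fun t ht s C O outs L hsym hC => ?_⟩⟩
    have h1 : ((K * c + 2 : ℕ) : ℝ) ≤ (k : ℝ) / ρ k := hk₀.trans (hρ.2.1 hk)
    set m := ⌊(k : ℝ) / ρ k⌋₊ with hm
    have h2 : K * c + 2 ≤ m := Nat.le_floor h1
    have h0 : (0 : ℝ) ≤ (k : ℝ) / ρ k := le_trans (Nat.cast_nonneg _) h1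
    have h3 : GapReducesTo m C outs L := by
      intro G hG
      refine ⟨(hC G hG).1, fun hS => (hC G hG).2 fun S hcl => ?_⟩
      calc (S.card : ℝ) < (m : ℝ) := by exact_mod_cast hS S hcl
        _ ≤ (k : ℝ) / ρ k := Nat.floor_le h0
    have h4 := h k m t s C O outs L (by omega) (by omega) hsym h3
    rw [mul_pow, ← mul_assoc]
    exact fpt (by norm_num) (by omega) (by omega) h4

end Pool.Agent.Results.MP_1fcf49_lc.LocallySymmetricCircuits
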